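import Pool.Agent.TE25.No12
import Pool.Agent.TD25.FFin
import Pool.Agent.TD25.Par
import Pool.Agent.TD25.OptEx
import Pool.Agent.TD25.UB12

/-!
# Covering the unit disk by twelve equal disks: the exact least radius

The least radius `r(12)` of twelve equal closed disks that cover the closed unit disk is exactly `1 / R`, where `(R, h, q)` is a solution of the
system `System` below (a solution exists, and every solution gives the same value `1 / R = 0.36110296...`). It is smaller than the value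
conjectured by Melissen and Schuur.
-/

set_option autoImplicit false

namespace Pool.Agent.Results.MP_7121fa_co.ExactTwelve

open Real

/-- Twelve closed disks of radius `r` cover the closed unit disk. -/
def Cover12 (r : ℝ) : Prop :=
  ∃ c : Fin 12 → ℂ, ∀ x : ℂ, ‖x‖ ≤ 1 → ∃ i, ‖x - c i‖ ≤ r

/-- The value of `r(12)` conjectured by Melissen and Schuur. -/
noncomputable def msValue : ℝ :=
  (1 / 3) * (1 + (1 + 3 * √57) ^ ((1 : ℝ) / 3) - 8 * (1 + 3 * √57) ^ (-((1 : ℝ) / 3)))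

/-- The system that determines the least radius `1 / R`. -/
structure System (R h q : ℝ) : Prop where
  R_lower : 2.76929324 ≤ R
  R_upper : R ≤ 2.76929326
  h_lower : 0.7705 ≤ h
  h_upper : h ≤ 0.7706
  q_lower : 1.13003 ≤ q
  q_upper : q ≤ 1.13007
  eq1 : h ^ 2 + q ^ 2 - h * q = 1
  eq2 : arccos ((R ^ 2 - 1 + (1 + q) ^ 2) / (2 * R * (1 + q))) +
      2 * arccos ((R + 1 + h) / (2 * √(1 + R * (1 + h)))) = π / 3
  eq3 : (R ^ 2 - 1 - (1 + q) ^ 2) /
        ((1 + q) * √(4 * R ^ 2 * (1 + q) ^ 2 - (R ^ 2 + (1 + q) ^ 2 - 1) ^ 2)) * (2 * h - q) =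
      (R ^ 2 - 2 - R * (1 + h)) /
        ((1 + R * (1 + h)) * √(4 - (R - 1 - h) ^ 2)) * (2 * q - h)

open Pool.Agent.TD25 in
private lemma ff_eq {R q : ℝ} (hR : 2.76929324 ≤ R) (hq1 : 1.12 ≤ q) (hq : q ≤ 1.14) :
    ff R q = arccos ((R ^ 2 - 1 + (1 + q) ^ 2) / (2 * R * (1 + q))) := by
  unfold ff fi
  rw [min_eq_left (by nlinarith), Real.sqrt_sq (by linarith)]

open Pool.Agent.TD25 in
private lemma gg_eq {R h : ℝ} (hR : 2.76929324 ≤ R) (hh1 : 0.77 ≤ h) (hh : h ≤ 0.78) :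
    gg R h = 2 * arccos ((R + 1 + h) / (2 * √(1 + R * (1 + h)))) := by
  unfold gg fi
  have h0 : 0 < 1 + R * (1 + h) := by nlinarith
  have hs : 0 < √(1 + R * (1 + h)) := Real.sqrt_pos.2 h0
  rw [min_eq_left (by nlinarith)]
  congr 2
  rw [div_eq_div_iff (by positivity) (by positivity)]
  ring

open Pool.Agent.TD25 in
private lemma sys_iff (R h q : ℝ) : System R h q ↔ OptS R h q := by
  constructor
  · intro S
    have h1 := S.R_lower
    have h2 := S.R_upper
    have h3 := S.h_lower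
    have h4 := S.h_upper
    have h5 := S.q_lower
    have h6 := S.q_upper
    have e2 := S.eq2
    rw [← ff_eq h1 (by linarith) (by linarith), ← gg_eq h1 (by linarith) (by linarith)] at e2
    exact ⟨⟨h1, h2, by linarith, by linarith, by linarith, by linarith, S.eq1, e2, S.eq3⟩, h3, h4, h5, h6⟩
  · intro O
    have h1 := O.R1
    have h2 := O.R2
    have h3 := O.h3
    have h4 := O.h4
    have h5 := O.q3
    have h6 := O.q4
    have e2 := O.e2
    rw [ff_eq h1 (by linarith) (by linarith), gg_eq h1 (by linarith) (by linarith)] at e2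
    exact ⟨h1, h2, h3, h4, h5, h6, O.e1, e2, O.e3⟩

private lemma scale_eq {R : ℝ} (hR : 0 < R) (x c : ℂ) : ‖x - ((1 / R : ℝ) : ℂ) * c‖ = 1 / R * ‖(R : ℂ) * x - c‖ := by
  have h : x - ((1 / R : ℝ) : ℂ) * c = ((1 / R : ℝ) : ℂ) * ((R : ℂ) * x - c) := by
    have hR' : (R : ℂ) ≠ 0 := by exact_mod_cast hR.ne'
    push_cast
    field_simp
  rw [h, norm_mul, Complex.norm_real, Real.norm_of_nonneg (by positivity)]

open Pool.Agent.TD25 in
private lemma upper {R h q : ℝ} (O : OptS R h q) : Cover12 (1 / R) := by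
  have hR0 : 0 < R := by have := O.R1; linarith
  obtain ⟨b, a, hcov, -⟩ := ub12 O
  have hn : ∀ x : ℂ, ‖(R : ℂ) * x‖ = R * ‖x‖ := fun x => by
    rw [norm_mul, Complex.norm_real, Real.norm_of_nonneg hR0.le]
  refine ⟨fun i => ((1 / R : ℝ) : ℂ) * (Fin.append b a i), ?_⟩
  intro x hx
  rcases hcov ((R : ℂ) * x) (by rw [hn]; nlinarith) with ⟨i, hi⟩ | ⟨j, hj⟩
  · refine ⟨Fin.castAdd 3 i, ?_⟩
    rw [scale_eq hR0]
    simp only [Fin.append_left]
    have := mul_le_mul_of_nonneg_left hi (show 0 ≤ 1 / R by positivity)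
    simpa using this
  · refine ⟨Fin.natAdd 9 j, ?_⟩
    rw [scale_eq hR0]
    simp only [Fin.append_right]
    have := mul_le_mul_of_nonneg_left hj (show 0 ≤ 1 / R by positivity)
    simpa using this

open Pool.Agent.TD25 in
private lemma lower {R h q : ℝ} (O : OptS R h q) {r : ℝ} (hr : Cover12 r) : 1 / R ≤ r := by
  have hR1 := O.R1
  have hR2 := O.R2
  have hR0 : 0 < R := by linarith
  by_contra hlt
  rw [not_le] at hlt
  obtain ⟨c, hcov⟩ := hr
  have hlam : 0 < lamO R h q :=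
    lt_of_lt_of_le (by norm_num)
      (lamB (by linarith) (by linarith) (by linarith [O.h1]) (by linarith [O.h2]) (by linarith [O.q1])
        (by linarith [O.q2])).1
  have hn : ∀ x : ℂ, ‖((1 / R : ℝ) : ℂ) * x‖ = 1 / R * ‖x‖ := fun x => by
    rw [norm_mul, Complex.norm_real, Real.norm_of_nonneg (by positivity)]
  have hR3 : 1 / R * R = 1 := by field_simp
  refine Pool.Agent.TE25.no12 (R := R) (lam := lamO R h q) ⟨by linarith, by linarith⟩ hlam (fineq_of_opt O.toOpt)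
    (fun i => (R : ℂ) * c i) ?_
  intro x hx
  obtain ⟨i, hi⟩ := hcov (((1 / R : ℝ) : ℂ) * x) (by
    have h5 : 1 / R * ‖x‖ ≤ 1 / R * R := mul_le_mul_of_nonneg_left hx (by positivity)
    rw [hn]; linarith)
  refine ⟨i, ?_⟩
  have h1 : x - (R : ℂ) * c i = (R : ℂ) * (((1 / R : ℝ) : ℂ) * x - c i) := by
    have hR' : (R : ℂ) ≠ 0 := by exact_mod_cast hR0.ne'
    push_cast
    field_simp
  rw [h1, norm_mul, Complex.norm_real, Real.norm_of_nonneg hR0.le]
  calc R * ‖((1 / R : ℝ) : ℂ) * x - c i‖ ≤ R * r := mul_le_mul_of_nonneg_left hi hR0.le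
    _ < R * (1 / R) := mul_lt_mul_of_pos_left hlt hR0
    _ = 1 := by field_simp

private lemma lt_ms {R : ℝ} (hR : 2.76929324 ≤ R) : 1 / R < msValue := by
  have hR' : 1 / R ≤ 361102966 / 10 ^ 9 := by
    rw [div_le_div_iff₀ (by linarith) (by norm_num)]
    nlinarith
  have h57 : (754983365 / 10 ^ 8 : ℝ) < √57 := by
    apply Real.lt_sqrt_of_sq_lt; norm_num
  set T := 1 + 3 * √57 with hT
  have hTlow : (287038836 / 10 ^ 8 : ℝ) ^ 3 < T := by
    have : (287038836 / 10 ^ 8 : ℝ) ^ 3 < 1 + 3 * (754983365 / 10 ^ 8) := by norm_num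
    linarith
  have hT0 : 0 ≤ T := le_trans (by positivity) hTlow.le
  have ht : (287038836 / 10 ^ 8 : ℝ) < T ^ ((1 : ℝ) / 3) := by
    have e : (287038836 / 10 ^ 8 : ℝ) = ((287038836 / 10 ^ 8 : ℝ) ^ 3) ^ ((1 : ℝ) / 3) := by
      rw [← Real.rpow_natCast (287038836 / 10 ^ 8 : ℝ) 3,
        ← Real.rpow_mul (by norm_num : (0 : ℝ) ≤ 287038836 / 10 ^ 8)]
      norm_num
    rw [e]
    exact Real.rpow_lt_rpow (by positivity) hTlow (by norm_num)
  have hneg : T ^ (-((1 : ℝ) / 3)) = (T ^ ((1 : ℝ) / 3))⁻¹ := Real.rpow_neg hT0 _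
  unfold msValue
  rw [← hT, hneg]
  set t := T ^ ((1 : ℝ) / 3) with htdef
  have hinv : t⁻¹ ≤ (287038836 / 10 ^ 8 : ℝ)⁻¹ := inv_anti₀ (by norm_num) ht.le
  have hnum : (361102966 / 10 ^ 9 : ℝ) < (1 / 3) * (1 + (287038836 / 10 ^ 8 : ℝ)
      - 8 * (287038836 / 10 ^ 8 : ℝ)⁻¹) := by
    norm_num
  have : (1 / 3) * (1 + (287038836 / 10 ^ 8 : ℝ) - 8 * (287038836 / 10 ^ 8 : ℝ)⁻¹)
      ≤ (1 / 3) * (1 + t - 8 * t⁻¹) := by
    linarith
  linarith

theorem result : (∃ R h q : ℝ, System R h q) ∧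
    ∀ R h q : ℝ, System R h q → IsLeast {r : ℝ | Cover12 r} (1 / R) ∧ 1 / R < msValue := by
  obtain ⟨R, h, q, O⟩ := Pool.Agent.TD25.opt_exists
  refine ⟨⟨R, h, q, (sys_iff R h q).2 O⟩, fun R h q S => ?_⟩
  have O := (sys_iff R h q).1 S
  exact ⟨⟨upper O, fun r hr => lower O hr⟩, lt_ms S.R_lower⟩

end Pool.Agent.Results.MP_7121fa_co.ExactTwelve
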